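import Pool.Agent.Helper1.FF2.Goals2

/-!
# MP_7cb822_co: StmtReach (reachability and distances outside the obstacles)
-/

namespace Pool.Agent.Helper97.FF

open Finset
open Pool.Agent.Helper34.FF hiding StmtG
open Pool.Agent.Helper1.FF2
open scoped symmDiff Classical

lemma isW_reach {V : Type} {G : SimpleGraph V} {k : ℕ} {a : ℕ → V} {x y : V} (h : IsW G k a x y) :
    ∃ p : G.Walk x y, p.length = k := by
  induction k generalizing y with
  | zero =>
    obtain ⟨h0, h1, -⟩ := h
    have : x = y := h0.symm.trans h1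
    subst this
    exact ⟨SimpleGraph.Walk.nil, rfl⟩
  | succ k ih =>
    obtain ⟨h0, h1, h2⟩ := h
    obtain ⟨p, hp⟩ := ih (y := a k) ⟨h0, rfl, fun i hi => h2 i (by omega)⟩
    have hadj : G.Adj (a k) y := h1 ▸ h2 k (by omega)
    refine ⟨p.concat hadj, ?_⟩
    rw [SimpleGraph.Walk.length_concat, hp]

lemma within_dist {V : Type} {G : SimpleGraph V} {t : ℕ} {x y : V} (h : Within G t x y) :
    G.Reachable x y ∧ G.dist x y ≤ t := by
  obtain ⟨k, hk, a, ha⟩ := h
  obtain ⟨p, hp⟩ := isW_reach ha
  exact ⟨⟨p⟩, (SimpleGraph.dist_le p).trans (hp ▸ hk)⟩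

lemma walk_isW {V : Type} {G : SimpleGraph V} {x y : V} (p : G.Walk x y) :
    IsW G p.length p.getVert x y := by
  refine ⟨p.getVert_zero, p.getVert_length, fun i hi => p.adj_getVert_succ hi⟩

lemma dist_within {V : Type} {G : SimpleGraph V} {x y : V} (h : G.Reachable x y) :
    Within G (G.dist x y) x y := by
  obtain ⟨p, hp⟩ := h.exists_walk_length_eq_dist
  exact ⟨_, hp.le, _, walk_isW p⟩

section
variable {V F : Type} [Fintype V] [Fintype F] (T : Tri V F)

/-- an edge with a face in `E` (and `X` disjoint from `E`) is not an inner edge of `X`. -/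
lemma not_inn (hAlg : StmtAlg) {E X : Finset F} (hd : Disjoint X E) {e : Sym2 V}
    (he : e ∈ T.G.edgeSet) (hE : 1 ≤ (E.filter fun f => T.on e f).card) : e ∉ T.inn X := by
  intro h
  obtain ⟨-, -, -, h4, -⟩ := hAlg V F T
  have h2 := h4 e he
  simp only [Tri.inn, mem_filter, mem_univ, true_and] at h
  have h3 : (X.filter fun f => T.on e f).card + (E.filter fun f => T.on e f).card ≤
      (univ.filter fun f => T.on e f).card := by
    rw [← card_union_of_disjoint (disjoint_filter_filter hd)]
    apply card_le_card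
    intro f hf
    simp only [mem_union, mem_filter, mem_univ, true_and] at hf ⊢
    tauto
  omega

lemma mem_bdry {X : Finset F} {e : Sym2 V} : e ∈ T.bdry X ↔
    e ∈ T.G.edgeSet ∧ (X.filter fun f => T.on e f).card = 1 := by
  simp [Tri.bdry]

end

theorem pf_StmtReach (hAlg : StmtAlg) (hTri : StmtTri) (hEF : StmtEnumFacts) (hIso : StmtIso)
    (hAv : StmtAvoid) (hAI : StmtAvoidIn) : StmtReach := by
  intro V F _ _ T hT E l c Ds u hE hDs hdisj huE huD
  obtain ⟨t1, t2, t3, t4, t5⟩ := hTri V F T hT
  obtain ⟨a1, a2, a3, a4, a5, a6, a7⟩ := hAlg V F T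
  obtain ⟨e1, -, -, e4, -⟩ := hEF V F T hT E l c hE
  set Ω := T.avoid (insert E Ds) with hΩ
  set H := T.avoid {E} with hH
  have hΩG : Ω ≤ T.G := fun x y h => h.1
  have hHG : H ≤ T.G := fun x y h => h.1
  -- the boundaries of the obstacles are in H
  have hb : ∀ X ∈ Ds, ∀ e ∈ T.bdry X, e ∈ H.edgeSet := by
    intro X hX e he
    obtain ⟨h1, h2⟩ := (mem_bdry T).1 he
    have h3 : e ∉ T.inn E := not_inn T hAlg (hdisj X hX).symm h1 h2.ge
    induction e using Sym2.ind with
    | _ x y =>
      refine ⟨h1, ?_⟩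
      intro Y hY
      rw [mem_singleton] at hY
      subst hY
      exact h3
  have hHΩ : H ⊓ T.avoid Ds = Ω := by
    ext x y
    simp only [SimpleGraph.inf_adj, hH, hΩ, Tri.avoid, mem_insert, mem_singleton, forall_eq,
      forall_eq_or_imp]
    tauto
  -- the boundary of E is in Ω
  have hbE : ∀ i, Ω.Adj (c i) (c (i + 1)) := by
    intro i
    have he : s(c i, c (i + 1)) ∈ T.bdry E := (hE.bd _).2 ⟨i, rfl⟩
    obtain ⟨h1, h2⟩ := (mem_bdry T).1 he
    refine ⟨h1, ?_⟩
    intro X hX
    rcases mem_insert.1 hX with rfl | hX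
    · exact Finset.disjoint_left.1 (a6 _) he
    · exact not_inn T hAlg (hdisj X hX) h1 h2.ge
  have hcE : ∀ i, c i ∈ T.Vbd E := fun i => (e4 _).2 ⟨i, rfl⟩
  have hcX : ∀ i, ∀ X ∈ Ds, c i ∉ T.Vin X := by
    intro i X hX h
    obtain ⟨⟨f, hf, hf2⟩, -⟩ := t4 E _ (hcE i)
    simp only [Tri.Vin, mem_filter, mem_univ, true_and] at h
    exact Finset.disjoint_left.1 (hdisj X hX) (h f hf2) hf
  -- 4th part
  have key : ∀ i t, Hits T.G (T.Vbd E) u t (c i) → Within Ω t u (c i) := by
    rintro i t ⟨k, hk, a, ⟨h0, h1, h2⟩, h3⟩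
    have hvin : ∀ j < k, a j ∈ T.Vin Eᶜ := by
      intro j hj
      refine t5 Eᶜ j a u (a j) ⟨h0, rfl, fun i hi => h2 i (by omega)⟩ ?_ huE
      intro i' hi'
      rw [t3 E]
      exact h3 i' (by omega)
    have hW : Within H t u (c i) := by
      refine ⟨k, hk, a, h0, h1, fun j hj => ?_⟩
      have hadj := h2 j hj
      refine ⟨hadj, ?_⟩
      intro X hX
      rw [mem_singleton] at hX
      subst hX
      have h5 : s(a j, a (j + 1)) ∈ T.inn Xᶜ := a7 _ _ (hvin j hj) _ hadj (Sym2.mem_mk_left _ _)
      simp only [Tri.inn, mem_filter, mem_univ, true_and] at h5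
      exact not_inn T hAlg disjoint_compl_right h5.1 (by omega)
    have := hAI V F T hT Ds H hDs hHG hb t u (c i) huD (hcX i) hW
    rwa [hHΩ] at this
  have hreach1 : ∀ i j : ℤ, Ω.Reachable (c i) (c j) := by
    have hup : ∀ (n : ℕ) (i : ℤ), Ω.Reachable (c i) (c (i + n)) := by
      intro n
      induction n with
      | zero => intro i; simp
      | succ n ih =>
        intro i
        refine (ih i).trans ?_
        have := (hbE (i + n)).reachable
        push_cast
        rwa [← add_assoc]
    intro i j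
    rcases le_total i j with h | h
    · have := hup (j - i).toNat i
      rwa [show i + ((j - i).toNat : ℤ) = j by omega] at this
    · have := hup (i - j).toNat j
      rw [show j + ((i - j).toNat : ℤ) = i by omega] at this
      exact this.symm
  -- 1st part
  have first : ∀ i, Ω.Reachable u (c i) := by
    intro i
    obtain ⟨p⟩ := hT.conn.preconnected u (c i)
    have hp := walk_isW p
    have hex : ∃ j, j ≤ p.length ∧ p.getVert j ∈ T.Vbd E :=
      ⟨p.length, le_rfl, by rw [p.getVert_length]; exact hcE i⟩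
    classical
    have hf1 := (Nat.find_spec hex).1
    have hf2 := (Nat.find_spec hex).2
    have hf3 := fun j (hj : j < Nat.find hex) => Nat.find_min hex hj
    obtain ⟨i', hi'⟩ := (e4 _).1 hf2
    have hh : Hits T.G (T.Vbd E) u (Nat.find hex) (c i') := by
      refine ⟨Nat.find hex, le_rfl, p.getVert, ⟨p.getVert_zero, hi', fun j hj => ?_⟩, ?_⟩
      · exact hp.2.2 j (by omega)
      · intro j hj hmem
        exact hf3 j hj ⟨by omega, hmem⟩
    exact (within_dist (key _ _ hh)).1.trans (hreach1 i' i)
  refine ⟨first, ?_, ?_, ?_, ?_⟩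
  · intro i
    obtain ⟨p, hp⟩ := (first (i + 1)).exists_walk_length_eq_dist
    have := SimpleGraph.dist_le (p.concat (hbE i).symm)
    rw [SimpleGraph.Walk.length_concat, hp] at this
    exact this
  · intro i
    obtain ⟨p, hp⟩ := (first i).exists_walk_length_eq_dist
    have := SimpleGraph.dist_le (p.concat (hbE i))
    rw [SimpleGraph.Walk.length_concat, hp] at this
    exact this
  · intro i t h
    exact (within_dist (key i t h)).2
  · intro hI x hx
    obtain ⟨i1, -⟩ := hIso V F T hT
    obtain ⟨hIN, -, -, -⟩ := i1 E l c hI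
    have hObst : T.Obst (insert E Ds) := by
      refine ⟨?_, ?_⟩
      · intro X hX
        rcases mem_insert.1 hX with rfl | hX
        · exact ⟨e1, hIN⟩
        · exact hDs.1 X hX
      · intro X hX Y hY hXY
        rcases mem_insert.1 hX with hX' | hX'
        · rcases mem_insert.1 hY with hY' | hY'
          · exact absurd (hX'.trans hY'.symm) hXY
          · rw [hX']
            exact (hdisj Y hY').symm
        · rcases mem_insert.1 hY with hY' | hY'
          · rw [hY']
            exact hdisj X hX'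
          · exact hDs.2 X hX' Y hY' hXY
    have huI : ∀ X ∈ insert E Ds, u ∉ T.Vin X := by
      intro X hX
      rcases mem_insert.1 hX with rfl | hX
      · intro h
        exact (t2 _ _ h).2 huE
      · exact huD X hX
    have hGr := hT.conn.preconnected u x
    have hw := hAv V F T hT (insert E Ds) hObst _ u x huI hx (dist_within hGr)
    obtain ⟨r1, r2⟩ := within_dist hw
    refine ⟨r1, le_antisymm r2 ?_⟩
    obtain ⟨p, hp⟩ := r1.exists_walk_length_eq_dist
    have := SimpleGraph.dist_le (p.mapLe hΩG)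
    rw [SimpleGraph.Walk.length_map, hp] at this
    exact this

end Pool.Agent.Helper97.FF
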