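import Pool.Agent.Helper34.FF.G1
import Pool.Agent.Helper34.FF.Goals2
import Pool.Agent.Helper97.FF.StmtReach

/-!
# MP_7cb822_co: StmtIsoCut (isometry of short heavy bonds)
-/

namespace Pool.Agent.Helper97.FF

open Finset
open Pool.Agent.Helper34.FF
open scoped symmDiff Classical

lemma dvd_small {l x : ℤ} (h : l ∣ x) (h0 : 0 ≤ x) (h1 : x < l) : x = 0 :=
  Int.eq_zero_of_dvd_of_nonneg_of_lt h0 h1 h

theorem pf_StmtIsoCut (hMass : StmtMass) : StmtIsoCut := by
  intro V F _ _ T hT L e S X l hS hIN hX hXS hl hmin he hheavy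
  subst hl
  obtain ⟨t1, t2, t3, t4, t5⟩ := pTri V F T hT
  obtain ⟨a1, a2, a3, a4, a5, a6, a7⟩ := pAlg V F T
  obtain ⟨c, hc⟩ := pEnum V F T hT X hX
  obtain ⟨e1, -, -, e4, -, e6, -, e8, -⟩ := pEnumFacts V F T hT X _ c hc
  obtain ⟨-, hm⟩ := hMass V F T hT
  obtain ⟨m1, -, -, m4, -, m6⟩ := hm L
  have hlc : ∀ Y, T.len Yᶜ = T.len Y := fun Y => (m6 Y Y).2.2.2
  refine ⟨c, (pIso V F T hT).2 X _ c hc ?_⟩
  intro i j k a hij hjl hw
  have hObst : T.Obst {Sᶜ} := by
    refine ⟨?_, ?_⟩
    · intro Y hY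
      rw [mem_singleton] at hY
      subst hY
      refine ⟨⟨hS.2, ?_⟩, hIN⟩
      rw [compl_compl]
      exact hS.1
    · intro Y hY Z hZ hne
      rw [mem_singleton] at hY hZ
      exact absurd (hY.trans hZ.symm) hne
  have hcV : ∀ i, ∀ Y ∈ ({Sᶜ} : Finset (Finset F)), c i ∉ T.Vin Y := by
    intro i Y hY h
    rw [mem_singleton] at hY
    subst hY
    obtain ⟨⟨f, hf, hf2⟩, -⟩ := t4 X _ ((e4 _).2 ⟨i, rfl⟩)
    simp only [Tri.Vin, mem_filter, mem_univ, true_and, mem_compl] at h
    exact h f hf2 (hXS hf)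
  have hw1 := pAvoid V F T hT _ hObst k _ _ (hcV i) (hcV j) ⟨k, le_rfl, a, hw⟩
  obtain ⟨k', hk', a', hw'⟩ := hw1
  have hl3 : (3 : ℤ) ≤ (T.len X : ℤ) := by exact_mod_cast hc.three
  have hchord : ∀ (i j : ℤ) (k : ℕ) (a : ℕ → V), i < j → j < i + T.len X →
      IsW (T.avoid {Sᶜ}) k a (c i) (c j) → Inj k a →
      (∀ t, 0 < t → t < k → ∀ q, a t ≠ c q) →
      min (j - i) ((T.len X : ℤ) - (j - i)) ≤ (k : ℤ) := by
    intro i j k a hij hjl hw hinj hout
    by_contra hcon
    rw [not_le] at hcon
    obtain ⟨hk1, hk2⟩ := lt_min_iff.1 hcon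
    have hwG : IsW T.G k a (c i) (c j) := ⟨hw.1, hw.2.1, fun t ht => (hw.2.2 t ht).1⟩
    have hkpos : 0 < k := by
      rcases Nat.eq_zero_or_pos k with h | h
      · subst h
        have h1 : c i = c j := hw.1.symm.trans hw.2.1
        have h2 := hc.inj j i h1.symm
        have h3 := dvd_small h2 (by omega) (by omega)
        omega
      · exact h
    -- no edge is a boundary edge
    have hnb : ∀ t < k, s(a t, a (t + 1)) ∉ T.bdry X := by
      intro t ht hb
      obtain ⟨q, hq⟩ := (hc.bd _).1 hb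
      have hat : (∃ q, a t = c q) ∧ ∃ q, a (t + 1) = c q := by
        rcases Sym2.eq_iff.1 hq with ⟨h1, h2⟩ | ⟨h1, h2⟩
        · exact ⟨⟨_, h1⟩, ⟨_, h2⟩⟩
        · exact ⟨⟨_, h1⟩, ⟨_, h2⟩⟩
      have ht0 : t = 0 := by
        by_contra h0
        obtain ⟨q, hq⟩ := hat.1
        exact hout t (by omega) ht q hq
      have ht1 : t + 1 = k := by
        by_contra h0
        obtain ⟨q, hq⟩ := hat.2
        exact hout (t + 1) (by omega) (by omega) q hq
      subst ht0
      have hk' : k = 1 := by omega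
      subst hk'
      have h0 := hw.1
      have h1 := hw.2.1
      rw [h0] at hq
      simp only [zero_add] at hq
      rw [h1] at hq
      rcases Sym2.eq_iff.1 hq with ⟨h2, h3⟩ | ⟨h2, h3⟩
      · have d1 := hc.inj _ _ h2
        have d2 := hc.inj _ _ h3
        have d3 : (T.len X : ℤ) ∣ j - i - 1 := by
          have := dvd_sub d2 d1
          rwa [show j - (q + 1) - (i - q) = j - i - 1 by ring] at this
        have := dvd_small d3 (by omega) (by omega)
        omega
      · have d1 := hc.inj _ _ h2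
        have d2 := hc.inj _ _ h3
        have d3 : (T.len X : ℤ) ∣ (T.len X : ℤ) - (j - i + 1) := by
          have := dvd_sub d2 d1
          rw [show j - q - (i - (q + 1)) = j - i + 1 by ring] at this
          exact dvd_sub dvd_rfl this
        have := dvd_small d3 (by omega) (by omega)
        omega
    have htri : ∀ t < k, s(a t, a (t + 1)) ∈ T.inn X ∨ s(a t, a (t + 1)) ∈ T.inn Xᶜ := by
      intro t ht
      rcases a5 X s(a t, a (t + 1)) (hwG.2.2 t ht) with h | h | h
      · exact absurd h (hnb t ht)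
      · exact Or.inl h
      · exact Or.inr h
    have hvb : ∀ t, 0 < t → t < k → a t ∉ T.Vbd X := by
      intro t h0 h1 h2
      obtain ⟨q, hq⟩ := (e4 _).1 h2
      exact hout t h0 h1 q hq
    have hone : (∀ t < k, s(a t, a (t + 1)) ∈ T.inn X) ∨
        (∀ t < k, s(a t, a (t + 1)) ∈ T.inn Xᶜ) := by
      rcases Nat.lt_or_ge 1 k with hk1' | hk1'
      · have hgen : ∀ Y, T.Vbd Y = T.Vbd X → a 1 ∈ T.Vin Y →
            ∀ t < k, s(a t, a (t + 1)) ∈ T.inn Y := by
          intro Y hY h1 t ht
          have hin : ∀ t, 0 < t → t < k → a t ∈ T.Vin Y := by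
            intro t h0 ht
            refine t5 Y (t - 1) (fun s => a (1 + s)) (a 1) (a t) ⟨rfl, ?_, ?_⟩ ?_ h1
            · show a (1 + (t - 1)) = a t
              rw [show 1 + (t - 1) = t by omega]
            · intro s hs
              exact hwG.2.2 (1 + s) (by omega)
            · intro s hs
              rw [hY]
              exact hvb (1 + s) (by omega) (by omega)
          rcases Nat.eq_zero_or_pos t with h0 | h0
          · subst h0
            exact a7 Y _ (hin 1 (by omega) hk1') _ (hwG.2.2 0 ht) (Sym2.mem_mk_right _ _)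
          · exact a7 Y _ (hin t h0 ht) _ (hwG.2.2 t ht) (Sym2.mem_mk_left _ _)
        rcases t1 X (a 1) with h | h | h
        · exact Or.inl (hgen X rfl h)
        · exact absurd h (hvb 1 (by omega) hk1')
        · exact Or.inr (hgen Xᶜ (t3 X) h)
      · rcases htri 0 hkpos with h | h
        · refine Or.inl fun t ht => ?_
          have : t = 0 := by omega
          subst this
          exact h
        · refine Or.inr fun t ht => ?_
          have : t = 0 := by omega
          subst this
          exact h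
    rcases hone with hin | hin
    · obtain ⟨Y₁, Y₂, hU, hD, hB1, hB2, -, -, hl1, hl2⟩ :=
        pChordZ V F T hT X _ c hc i j hij hjl k a hwG hinj hout hin
      have hY2 : X \ Y₁ = Y₂ := by
        rw [← hU, union_sdiff_cancel_left hD]
      have hmm := m4 Y₁ X (hU ▸ subset_union_left)
      rw [hY2] at hmm
      have hl1' : T.len Y₁ < T.len X := by omega
      have hl2' : T.len Y₂ < T.len X := by omega
      have hs1 : Y₁ ⊆ S := (hU ▸ subset_union_left : Y₁ ⊆ X).trans hXS
      have hs2 : Y₂ ⊆ S := (hU ▸ subset_union_right : Y₂ ⊆ X).trans hXS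
      rcases le_or_gt e (T.m L Y₁) with h | h
      · have := hmin Y₁ hB1 hs1 h
        omega
      · have := hmin Y₂ hB2 hs2 (by omega)
        omega
    · obtain ⟨Y₁, Y₂, hU, hD, hB1, hB2, hb1, -, hl1, hl2⟩ :=
        pChordZ V F T hT Xᶜ _ c e8 i j hij hjl k a hwG hinj hout hin
      have hl1' : T.len Y₁ < T.len X := by omega
      have hl2' : T.len Y₂ < T.len X := by omega
      have hSX : Sᶜ ⊆ Xᶜ := compl_subset_compl.2 hXS
      have hno : ∀ e ∈ T.bdry Y₁, e ∉ T.inn Sᶜ := by
        intro f hf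
        rw [hb1] at hf
        rcases mem_union.1 hf with hf | hf
        · simp only [wE, mem_image, mem_range] at hf
          obtain ⟨t, ht, rfl⟩ := hf
          exact (hw.2.2 t ht).2 Sᶜ (mem_singleton_self _)
        · have h1 := (e6 i j hij.le hjl.le).2.1 hf
          obtain ⟨h2, h3⟩ := (mem_bdry T).1 h1
          exact not_inn T pAlg (Finset.disjoint_left.2 fun x hx hx' => (mem_compl.1 hx) (hXS hx')) h2 h3.ge
      have hfin : ∀ Y, T.Bond Y → Y ⊆ Xᶜ → Sᶜ ⊆ Y → T.len Y < T.len X → False := by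
        intro Y hBY hYX hSY hlY
        have hB' : T.Bond Yᶜ := ⟨hBY.2, by rw [compl_compl]; exact hBY.1⟩
        have h1 : X ⊆ Yᶜ := by
          rw [← compl_compl X]
          exact compl_subset_compl.2 hYX
        have h2 : Yᶜ ⊆ S := by
          rw [← compl_compl S]
          exact compl_subset_compl.2 hSY
        have h3 := hmin Yᶜ hB' h2 (by have := m1 X Yᶜ h1; omega)
        rw [hlc] at h3
        omega
      rcases pNoCut V F T Sᶜ Y₁ hS.2 hno with h | h
      · exact hfin Y₁ hB1 (hU ▸ subset_union_left) h hl1'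
      · refine hfin Y₂ hB2 (hU ▸ subset_union_right) ?_ hl2'
        intro f hf
        have := hSX hf
        rw [← hU] at this
        rcases mem_union.1 this with h' | h'
        · exact absurd h' (Finset.disjoint_left.1 h hf)
        · exact h'
  have hfin := Pool.Agent.Helper93.FF.decompZ (T.avoid {Sᶜ}) (T.len X) c (by have := hc.three; omega)
    hc.per hchord k' i j a' (by exact_mod_cast hij) (by exact_mod_cast hjl) hw'
  omega

end Pool.Agent.Helper97.FF
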